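import Mathlib
import Pool.Agent.L7h13.SP.Fin

/-!
# The Lindelöf hypothesis and the zeros of the derivatives of zeta, on both sides of the critical line

Let `F(s) = P(d/ds) ζ(s) - A(s)` with a polynomial `P ≠ 0` and a Dirichlet polynomial
`A(s) = ∑_{1 ≤ n ≤ N} b_n n^{-s}`: for instance `F = ζ^{(k)}`, or `F = ζ^{(k)} - a` with a constant `a`.
Let `1/2 ≤ σ₀ < 1`. The following are equivalent.

* `ζ(σ + it) = O(|t|^ε)` for all `σ > σ₀` and `ε > 0` (for `σ₀ = 1/2`: the Lindelöf hypothesis);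
* for all `δ, θ > 0` and all large `|T|`, `F` has at most `θ log |T|` zeros, counted with multiplicity, with
  `Re s ≥ σ₀ + δ` and `|Im s - T| ≤ 1`;
* for all `δ, θ > 0` and all large `|T|`, `F` has at most `θ log |T|` zeros, counted with multiplicity, with
  `-1 ≤ Re s ≤ 1 - σ₀ - δ` and `|Im s - T| ≤ 1`.

So the Lindelöf hypothesis holds if and only if `ζ'` has `o(log T)` zeros per unit of height to the left of
`Re s = 1/2 - δ`, for every `δ > 0` (Speiser: the Riemann hypothesis holds if and only if `ζ'` has no zeros in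
`0 < Re s < 1/2`). Moreover for every `κ > 0` there are `δ, θ > 0` such that one of the two bounds, with these
`δ, θ`, implies `ζ(σ₀ + it) = O(|t|^κ)`.

Proof.  To the right: Jensen's inequality in discs with centre far to the right, where `F` is bounded
below; conversely few zeros imply `F(s) = O(T^ε)` (a uniform form of Backlund's argument), and
`P(d/ds) ζ = F + A` is a linear differential equation for `ζ` along horizontal segments.  To the left: `F(1 - w)` is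
of exact order `(log T)^{deg P} T^{Re w - 1/2}` for `Re w > 1`, and the same argument bounds `F(1 - w)` by
`T^{Re w - 1/2 + ε}` up to `Re w = σ`.  The differential equation, solved from `1 - σ` to the left, with initial
values of size `T^{σ - 1/2 + μ(σ)}`, gives
`μ(σ') ≤ max(0, μ(σ) - (σ' - σ)) + ε` for `σ' > σ`: the exponent decreases at the rate `1`, while by
convexity and the functional equation the rate is at most `1/2`; hence `μ(σ) = 0`.
-/

set_option autoImplicit false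

namespace Pool.Agent.Results.MP_4e5e8a_nt.DerivativeZeros

open Polynomial

/-- `F(s) = P(d/ds) ζ(s) - ∑_{1 ≤ n ≤ N} b_n n^{-s}` -/
noncomputable def F (P : ℂ[X]) (N : ℕ) (b : ℕ → ℂ) (s : ℂ) : ℂ :=
  ∑ k ∈ Finset.range (P.natDegree + 1), P.coeff k * iteratedDeriv k riemannZeta s -
    ∑ n ∈ Finset.Icc 1 N, b n * (n : ℂ) ^ (-s)

/-- For all real `T` with large `|T|`: at most `θ log |T|` zeros of `f`, counted with multiplicity, with real part
in `E` and `|Im s - T| ≤ 1`.  (The order of a point which is not a zero is `0`.) -/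
def Few (f : ℂ → ℂ) (E : Set ℝ) (θ : ℝ) : Prop := ∃ T₀ : ℝ, ∀ T : ℝ, T₀ ≤ |T| →
  ∀ S : Finset ℂ, (∀ s ∈ S, s.re ∈ E ∧ |s.im - T| ≤ 1) →
    ∑ s ∈ S, (analyticOrderNatAt f s : ℝ) ≤ θ * Real.log |T|

/-- `ζ(σ + it) = O(|t|^ε)` for all `σ > σ₀` and `ε > 0` -/
def Bound (σ₀ : ℝ) : Prop := ∀ σ : ℝ, σ₀ < σ → ∀ ε : ℝ, 0 < ε → ∃ C : ℝ, ∀ t : ℝ, 1 ≤ |t| →
  ‖riemannZeta (σ + t * Complex.I)‖ ≤ C * |t| ^ ε

/-- The Lindelöf hypothesis. -/
def Lindelof : Prop := ∀ ε : ℝ, 0 < ε → ∃ C : ℝ, ∀ t : ℝ,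
  ‖riemannZeta (1 / 2 + t * Complex.I)‖ ≤ C * (1 + |t|) ^ ε

theorem result :
    -- the Lindelöf hypothesis and the zeros of `F`
    (∀ (P : ℂ[X]) (N : ℕ) (b : ℕ → ℂ), P ≠ 0 →
      (Lindelof ↔ ∀ δ θ : ℝ, 0 < δ → 0 < θ → Few (F P N b) (Set.Ici (1 / 2 + δ)) θ) ∧
      (Lindelof ↔ ∀ δ θ : ℝ, 0 < δ → 0 < θ → Few (F P N b) (Set.Icc (-1) (1 / 2 - δ)) θ)) ∧
    -- the bounds in a half plane and the zeros of `F`
    (∀ (P : ℂ[X]) (N : ℕ) (b : ℕ → ℂ) (σ₀ : ℝ), P ≠ 0 → 1 / 2 ≤ σ₀ → σ₀ < 1 →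
      (Bound σ₀ ↔ ∀ δ θ : ℝ, 0 < δ → 0 < θ → Few (F P N b) (Set.Ici (σ₀ + δ)) θ) ∧
      (Bound σ₀ ↔ ∀ δ θ : ℝ, 0 < δ → 0 < θ → Few (F P N b) (Set.Icc (-1) (1 - σ₀ - δ)) θ) ∧
      -- the quantitative form
      (∀ κ : ℝ, 0 < κ → ∃ δ θ : ℝ, 0 < δ ∧ 0 < θ ∧
        (Few (F P N b) (Set.Ici (σ₀ + δ)) θ ∨ Few (F P N b) (Set.Icc (-1) (1 - σ₀ - δ)) θ →
          ∃ C : ℝ, ∀ t : ℝ, 1 ≤ |t| → ‖riemannZeta (σ₀ + t * Complex.I)‖ ≤ C * |t| ^ κ))) := by
  refine ⟨fun P N b hP => ⟨?_, ?_⟩, fun P N b σ₀ hP h0 h1 =>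
    ⟨Pool.Agent.L7h13.SP.right_iff hP N b h0 h1, Pool.Agent.L7h13.SP.left_iff hP N b h0 h1,
      fun κ hκ => Pool.Agent.L7h13.SP.quant hP N b h0 h1 hκ⟩⟩
  · exact Pool.Agent.L7h13.SP.lh_iff.trans
      (Pool.Agent.L7h13.SP.right_iff hP N b le_rfl (by norm_num))
  · have h := Pool.Agent.L7h13.SP.lh_iff.trans
      (Pool.Agent.L7h13.SP.left_iff hP N b le_rfl (by norm_num))
    have e : ∀ δ : ℝ, 1 - 1 / 2 - δ = 1 / 2 - δ := fun δ => by ring
    simp only [e] at h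
    exact h

end Pool.Agent.Results.MP_4e5e8a_nt.DerivativeZeros
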