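import Mathlib
import Pool.Agent.L7h13.XI.Fin

/-!
# The Lindelöf hypothesis and the zeros of `a ξ(s + h) + b ξ(s - h)`

Let `ξ(s) = s (s - 1) π^{-s/2} Γ(s/2) ζ(s) / 2`, and `F(s) = a ξ(s + h) + b ξ(s - h)`.  For `h ≥ 1/2` and
`|a| = |b|` all zeros of `F` are on the critical line (Taylor 1945), for `0 < h < 1/2` this would follow from the
Riemann hypothesis.  We show what the Lindelöf hypothesis means for these functions.  `few zeros` in a region: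
for every `θ > 0` at most `θ log |T|` zeros (with multiplicity) with `|Im s - T| ≤ 1`, for large `|T|`.

* Let `0 < h < 1/2`. The bounds `ζ(σ + it) = O(|t|^ε)` for all `σ > 1/2 + h` and `ε > 0` hold if and only if for
  all `a, b ≠ 0` and `δ > 0`, `F` has few zeros with `|Re s - 1/2| ≥ δ`. It is enough that this holds to the right
  of the line for two non-proportional pairs `(a, b)`, for instance for `ξ(s + h) + ξ(s - h)` and
  `ξ(s + h) - ξ(s - h)`.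
* Fix `a, b ≠ 0` with `a + b ≠ 0`, for instance `a = b = 1`. The Lindelöf hypothesis holds if and only if for all `h` in
  `(0, 1/2)` and all `δ > 0`, `F` has few zeros with `|Re s - 1/2| ≥ δ`; it is enough that there are arbitrarily
  small `h` for which this holds, to the right of the line, for `h` and for `2h`.
* Quantitative forms: for every `κ > 0` there are `h, δ, θ > 0` such that at most `θ log |T|` zeros
  to the right of `1/2 + δ`, for `h` and for `2h`, imply `ζ(1/2 + it) = O(|t|^κ)`.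

Proof.  Write `x = Re s - 1/2`. By the bounds, the functional equation and convexity, `ξ(s)` is at most
`|t|^{max(h, |x|)/2 + 7/4 + ε} e^{-π|t|/4}`, so `F(s)` is at most `|t|^{(x + h)/2 + 7/4 + ε} e^{-π|t|/4}` for
`x ≥ 0`, and this is the exact order for `x ≥ 5/4`; Jensen's inequality. Conversely, few zeros imply this
bound for `F` for `x > 0` (a uniform form of Backlund's argument), and `ξ(s + h)` is a
combination of two functions `F`; for one pair `(a, b)` one uses the identity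
`a (a + b) ξ(p) = a (a ξ(p) + b ξ(q)) + b (a ξ(p) + b ξ(r)) - b (a ξ(q) + b ξ(r))`.
-/

set_option autoImplicit false

namespace Pool.Agent.Results.MP_4e5e8a_nt.ShiftedXiZeros

/-- Riemann's `ξ(s) = s (s - 1) π^{-s/2} Γ(s/2) ζ(s) / 2`, as an entire function -/
noncomputable def xi (s : ℂ) : ℂ := (s * (s - 1) * completedRiemannZeta₀ s + 1) / 2

/-- `F(s) = a ξ(s + h) + b ξ(s - h)` -/
noncomputable def F (a b : ℂ) (h : ℝ) (s : ℂ) : ℂ := a * xi (s + h) + b * xi (s - h)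

/-- For all real `T` with large `|T|`: at most `θ log |T|` zeros of `f`, counted with multiplicity, with real part
in `E` and `|Im s - T| ≤ 1`.  (The order of a point which is not a zero is `0`.) -/
def Few (f : ℂ → ℂ) (E : Set ℝ) (θ : ℝ) : Prop := ∃ T₀ : ℝ, ∀ T : ℝ, T₀ ≤ |T| →
  ∀ S : Finset ℂ, (∀ s ∈ S, s.re ∈ E ∧ |s.im - T| ≤ 1) →
    ∑ s ∈ S, (analyticOrderNatAt f s : ℝ) ≤ θ * Real.log |T|

/-- the real parts off the critical line -/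
def Off (δ : ℝ) : Set ℝ := {x | δ ≤ |x - 1 / 2|}

/-- `ζ(σ + it) = O(|t|^ε)` for all `σ > σ₀` and `ε > 0` -/
def Bound (σ₀ : ℝ) : Prop := ∀ σ : ℝ, σ₀ < σ → ∀ ε : ℝ, 0 < ε → ∃ C : ℝ, ∀ t : ℝ, 1 ≤ |t| →
  ‖riemannZeta (σ + t * Complex.I)‖ ≤ C * |t| ^ ε

/-- The Lindelöf hypothesis. -/
def Lindelof : Prop := ∀ ε : ℝ, 0 < ε → ∃ C : ℝ, ∀ t : ℝ,
  ‖riemannZeta (1 / 2 + t * Complex.I)‖ ≤ C * (1 + |t|) ^ ε

theorem result :
    -- the function `ξ`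
    (∀ s : ℂ, s ≠ 0 → s ≠ 1 → xi s = s * (s - 1) / 2 * completedRiemannZeta s) ∧
    -- a fixed shift
    (∀ h : ℝ, 0 < h → h < 1 / 2 →
      (Bound (1 / 2 + h) ↔ ∀ a b : ℂ, a ≠ 0 → b ≠ 0 → ∀ δ θ : ℝ, 0 < δ → 0 < θ →
        Few (F a b h) (Off δ) θ) ∧
      (∀ a₁ b₁ a₂ b₂ : ℂ, a₁ ≠ 0 → a₂ ≠ 0 → a₁ * b₂ ≠ a₂ * b₁ →
        (Bound (1 / 2 + h) ↔ ∀ δ θ : ℝ, 0 < δ → 0 < θ →
          Few (F a₁ b₁ h) (Set.Ici (1 / 2 + δ)) θ ∧ Few (F a₂ b₂ h) (Set.Ici (1 / 2 + δ)) θ) ∧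
        ∀ κ : ℝ, 0 < κ → ∃ δ θ : ℝ, 0 < δ ∧ 0 < θ ∧
          (Few (F a₁ b₁ h) (Set.Ici (1 / 2 + δ)) θ → Few (F a₂ b₂ h) (Set.Ici (1 / 2 + δ)) θ →
            ∃ C : ℝ, ∀ t : ℝ, 1 ≤ |t| →
              ‖riemannZeta (((1 / 2 + h : ℝ) : ℂ) + t * Complex.I)‖ ≤ C * |t| ^ κ))) ∧
    -- fixed coefficients: the Lindelöf hypothesis
    (∀ a b : ℂ, a ≠ 0 → b ≠ 0 → a + b ≠ 0 →
      (Lindelof ↔ ∀ h : ℝ, 0 < h → h < 1 / 2 → ∀ δ θ : ℝ, 0 < δ → 0 < θ → Few (F a b h) (Off δ) θ) ∧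
      (Lindelof ↔ ∀ h₀ : ℝ, 0 < h₀ → ∃ h : ℝ, 0 < h ∧ h < h₀ ∧ ∀ δ θ : ℝ, 0 < δ → 0 < θ →
        Few (F a b h) (Set.Ici (1 / 2 + δ)) θ ∧ Few (F a b (2 * h)) (Set.Ici (1 / 2 + δ)) θ) ∧
      ∀ κ : ℝ, 0 < κ → ∃ h δ θ : ℝ, 0 < h ∧ 0 < δ ∧ 0 < θ ∧
        (Few (F a b h) (Set.Ici (1 / 2 + δ)) θ → Few (F a b (2 * h)) (Set.Ici (1 / 2 + δ)) θ →
          ∃ C : ℝ, ∀ t : ℝ, 1 ≤ |t| → ‖riemannZeta (1 / 2 + t * Complex.I)‖ ≤ C * |t| ^ κ)) := by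
  refine ⟨fun s h0 h1 => Pool.Agent.L7h13.XI.xi_completed h0 h1, fun h h0 h1 => ⟨⟨?_, ?_⟩, ?_⟩, ?_⟩
  · intro H a b ha hb δ θ hδ hθ
    exact Pool.Agent.L7h13.XI.off_few ha hb h0 h1 H hδ hθ
  · intro H
    refine Pool.Agent.L7h13.XI.bd_two (a₁ := 1) (b₁ := 1) (a₂ := 1) (b₂ := -1) one_ne_zero one_ne_zero
      (by norm_num) h0 h1 fun δ θ hδ hθ => ⟨?_, ?_⟩
    · exact Pool.Agent.L7h13.XI.off_right hδ (H 1 1 one_ne_zero one_ne_zero δ θ hδ hθ)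
    · exact Pool.Agent.L7h13.XI.off_right hδ (H 1 (-1) one_ne_zero (by norm_num) δ θ hδ hθ)
  · intro a₁ b₁ a₂ b₂ h2 h3 h4
    refine ⟨⟨fun H δ θ hδ hθ => ⟨?_, ?_⟩, fun H => ?_⟩, fun κ hκ => ?_⟩
    · exact Pool.Agent.L7h13.XI.right_two b₁ h2 h0 h1 H hδ hθ
    · exact Pool.Agent.L7h13.XI.right_two b₂ h3 h0 h1 H hδ hθ
    · exact Pool.Agent.L7h13.XI.bd_two h2 h3 h4 h0 h1 H
    · exact Pool.Agent.L7h13.XI.two_quant h2 h3 h4 h0 h1 hκ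
  · intro a b ha hb hab
    have hup : Lindelof → ∀ h : ℝ, 0 < h → Bound (1 / 2 + h) := by
      intro H h hh σ hσ
      exact Pool.Agent.L7h13.SP.lh_iff.1 H σ (by linarith)
    have hlow : (∀ h₀ : ℝ, 0 < h₀ → ∃ h : ℝ, 0 < h ∧ h < h₀ ∧ ∀ δ θ : ℝ, 0 < δ → 0 < θ →
        Few (F a b h) (Set.Ici (1 / 2 + δ)) θ ∧ Few (F a b (2 * h)) (Set.Ici (1 / 2 + δ)) θ) →
        Lindelof := by
      intro H
      refine Pool.Agent.L7h13.SP.lh_iff.2 (Pool.Agent.L7h13.XI.lh_of ha hab fun h₀ hh₀ => ?_)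
      obtain ⟨h, g1, g2, g3⟩ := H (h₀ / 2) (by positivity)
      refine ⟨h, h, g1, g1, by linarith, fun δ θ hδ hθ => ?_⟩
      obtain ⟨g4, g5⟩ := g3 δ θ hδ hθ
      rw [← two_mul]
      exact ⟨g4, g4, g5⟩
    refine ⟨⟨fun H h h0 h1 δ θ hδ hθ => ?_, fun H => hlow fun h₀ hh₀ => ?_⟩,
      ⟨fun H h₀ hh₀ => ?_, hlow⟩, fun κ hκ => ?_⟩
    · exact Pool.Agent.L7h13.XI.off_few ha hb h0 h1 (hup H h h0) hδ hθ
    · have m0 : 0 < min (h₀ / 2) (1 / 8) := lt_min (by positivity) (by norm_num)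
      have m1 : min (h₀ / 2) (1 / 8) ≤ h₀ / 2 := min_le_left _ _
      have m2 : min (h₀ / 2) (1 / 8) ≤ 1 / 8 := min_le_right _ _
      refine ⟨min (h₀ / 2) (1 / 8), m0, by linarith, fun δ θ hδ hθ => ⟨?_, ?_⟩⟩
      · exact Pool.Agent.L7h13.XI.off_right hδ (H _ m0 (by linarith) δ θ hδ hθ)
      · exact Pool.Agent.L7h13.XI.off_right hδ (H _ (by linarith) (by linarith) δ θ hδ hθ)
    · have m0 : 0 < min (h₀ / 2) (1 / 8) := lt_min (by positivity) (by norm_num)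
      have m1 : min (h₀ / 2) (1 / 8) ≤ h₀ / 2 := min_le_left _ _
      have m2 : min (h₀ / 2) (1 / 8) ≤ 1 / 8 := min_le_right _ _
      refine ⟨min (h₀ / 2) (1 / 8), m0, by linarith, fun δ θ hδ hθ => ⟨?_, ?_⟩⟩
      · exact Pool.Agent.L7h13.XI.right_two b ha m0 (by linarith) (hup H _ m0) hδ hθ
      · exact Pool.Agent.L7h13.XI.right_two b ha (by linarith) (by linarith) (hup H _ (by linarith)) hδ hθ
    · exact Pool.Agent.L7h13.XI.lh_quant ha hab hκ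

end Pool.Agent.Results.MP_4e5e8a_nt.ShiftedXiZeros
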