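import Mathlib
import Pool.Agent.L7h13.XD.Fin

/-!
# The Lindelöf hypothesis and the zeros of the derivatives of `ξ`

Let `ξ(s) = s (s - 1) π^{-s/2} Γ(s/2) ζ(s) / 2`. The Riemann hypothesis implies that all zeros of the derivatives
`ξ^{(k)}` are on the critical line, and Conrey (1983) proved that the proportion of zeros of `ξ^{(k)}` on the
critical line tends to `1` as `k → ∞`.  We show what the Lindelöf hypothesis means for the derivatives.
`few zeros` in a region: for every `θ > 0` at most `θ log |T|` zeros (with multiplicity) with `|Im s - T| ≤ 1`, for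
large `|T|`.

* For each `k ≥ 0`: the Lindelöf hypothesis holds if and only if `ξ^{(k)}` has few zeros off the critical line, that
  is, with `|Re s - 1/2| ≥ δ`, for each `δ > 0` (all zeros of `ξ^{(k)}` are in the critical strip, we only
  use `|Re s - 1/2| ≤ 7/2`). For `k = 0` this is Backlund's theorem. So the condition for one `k` implies
  the condition for all `k`.
* The same for linear combinations `G = ∑ c_j ξ^{(j)} = P(d/ds) ξ`, to the right or to the left of the line, for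
  `P ≠ 0` such that no root has imaginary part `π/4`, or no root has imaginary part `-π/4`. And for the
  bounds `ζ(σ + it) = O(|t|^ε)` for `σ > σ₀`: these are equivalent to few zeros with `Re s ≥ σ₀ + δ`, and to few
  zeros with `Re s ≤ 1 - σ₀ - δ`. That the bounds imply few zeros is true for all `P ≠ 0`.
* Quantitative form: for every `κ > 0` there are `δ, θ > 0` such that at most `θ log |T|` zeros of `G` to the right
  of `σ₀ + δ`, or to the left of `1 - σ₀ - δ`, imply `ζ(σ₀ + it) = O(|t|^κ)`.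

Proof. For `3/2 ≤ Re s ≤ 5` the function `G` is `P(log(s)/2) ξ(s) (1 + O(1/log |s|))`, and its order of magnitude is
`(log t)^{deg P} t^{x/2 + 7/4} e^{-π t/4}`, `x = Re s - 1/2`. The bounds and the functional equation give the upper
bound `t^{x/2 + 7/4 + ε} e^{-π t/4}` for `ξ`, hence for `G`, for `x ≥ σ₀ - 1/2`; Jensen's inequality. Conversely,
few zeros imply this bound for `G` for `x > σ₀ - 1/2` (a uniform form of Backlund's argument).  Now
solve the differential equation `P(d/ds) ξ = G` along a vertical line, one factor at a time: if `f' - λ f = g` and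
`g` is at most `t^a e^{-π t/4}` then `f` is at most a constant times `t^a e^{-π t/4}`, by
integration of `e^{-iλt} f(σ + it)` from infinity if `Im λ < π/4`, and from a fixed point if `Im λ > π/4`.
-/

set_option autoImplicit false

namespace Pool.Agent.Results.MP_4e5e8a_nt.XiDerivativeZeros

open Polynomial

/-- Riemann's `ξ(s) = s (s - 1) π^{-s/2} Γ(s/2) ζ(s) / 2`, as an entire function -/
noncomputable def xi (s : ℂ) : ℂ := (s * (s - 1) * completedRiemannZeta₀ s + 1) / 2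

/-- `G(s) = P(d/ds) ξ(s) = ∑ c_k ξ^{(k)}(s)`, `P = ∑ c_k X^k` -/
noncomputable def G (P : ℂ[X]) (s : ℂ) : ℂ :=
  ∑ k ∈ Finset.range (P.natDegree + 1), P.coeff k * iteratedDeriv k xi s

/-- For all real `T` with large `|T|`: at most `θ log |T|` zeros of `f`, counted with multiplicity, with real part
in `E` and `|Im s - T| ≤ 1`.  (The order of a point which is not a zero is `0`.) -/
def Few (f : ℂ → ℂ) (E : Set ℝ) (θ : ℝ) : Prop := ∃ T₀ : ℝ, ∀ T : ℝ, T₀ ≤ |T| →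
  ∀ S : Finset ℂ, (∀ s ∈ S, s.re ∈ E ∧ |s.im - T| ≤ 1) →
    ∑ s ∈ S, (analyticOrderNatAt f s : ℝ) ≤ θ * Real.log |T|

/-- no root of `P` has imaginary part `π/4`, or no root has imaginary part `-π/4` -/
def Adm (P : ℂ[X]) : Prop := (∀ lam, P.IsRoot lam → lam.im ≠ Real.pi / 4) ∨
  ∀ lam, P.IsRoot lam → lam.im ≠ -(Real.pi / 4)

/-- `ζ(σ + it) = O(|t|^ε)` for all `σ > σ₀` and `ε > 0` -/
def Bound (σ₀ : ℝ) : Prop := ∀ σ : ℝ, σ₀ < σ → ∀ ε : ℝ, 0 < ε → ∃ C : ℝ, ∀ t : ℝ, 1 ≤ |t| →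
  ‖riemannZeta (σ + t * Complex.I)‖ ≤ C * |t| ^ ε

/-- The Lindelöf hypothesis. -/
def Lindelof : Prop := ∀ ε : ℝ, 0 < ε → ∃ C : ℝ, ∀ t : ℝ,
  ‖riemannZeta (1 / 2 + t * Complex.I)‖ ≤ C * (1 + |t|) ^ ε

theorem result :
    -- the function `ξ`
    (∀ s : ℂ, s ≠ 0 → s ≠ 1 → xi s = s * (s - 1) / 2 * completedRiemannZeta s) ∧
    -- the Lindelöf hypothesis and the zeros of `ξ^{(k)}` off the critical line
    (∀ k : ℕ, Lindelof ↔ ∀ δ θ : ℝ, 0 < δ → 0 < θ →
      Few (iteratedDeriv k xi) {x | δ ≤ |x - 1 / 2| ∧ |x - 1 / 2| ≤ 7 / 2} θ) ∧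
    -- the Lindelöf hypothesis and the zeros of `G`, on one side
    (∀ P : ℂ[X], P ≠ 0 → Adm P →
      (Lindelof ↔ ∀ δ θ : ℝ, 0 < δ → 0 < θ → Few (G P) (Set.Icc (1 / 2 + δ) 4) θ) ∧
      (Lindelof ↔ ∀ δ θ : ℝ, 0 < δ → 0 < θ → Few (G P) (Set.Icc (-3) (1 / 2 - δ)) θ)) ∧
    -- the bounds in a half plane and the zeros of `G`
    (∀ (P : ℂ[X]) (σ₀ : ℝ), P ≠ 0 → Adm P → 1 / 2 ≤ σ₀ → σ₀ < 1 →
      (Bound σ₀ ↔ ∀ δ θ : ℝ, 0 < δ → 0 < θ → Few (G P) (Set.Icc (σ₀ + δ) 4) θ) ∧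
      (Bound σ₀ ↔ ∀ δ θ : ℝ, 0 < δ → 0 < θ → Few (G P) (Set.Icc (-3) (1 - σ₀ - δ)) θ) ∧
      -- the quantitative form
      (∀ κ : ℝ, 0 < κ → ∃ δ θ : ℝ, 0 < δ ∧ 0 < θ ∧
        (Few (G P) (Set.Icc (σ₀ + δ) 4) θ ∨ Few (G P) (Set.Icc (-3) (1 - σ₀ - δ)) θ →
          ∃ C : ℝ, ∀ t : ℝ, 1 ≤ |t| → ‖riemannZeta (σ₀ + t * Complex.I)‖ ≤ C * |t| ^ κ))) ∧
    -- the bounds imply few zeros, for every `P`
    (∀ (P : ℂ[X]) (σ₀ δ θ : ℝ), P ≠ 0 → 1 / 2 ≤ σ₀ → σ₀ < 1 → Bound σ₀ → 0 < δ → 0 < θ →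
      Few (G P) (Set.Icc (σ₀ + δ) 4) θ ∧ Few (G P) (Set.Icc (-3) (1 - σ₀ - δ)) θ) := by
  refine ⟨fun s h0 h1 => Pool.Agent.L7h13.XI.xi_completed h0 h1, fun k => ?_, fun P hP hA => ⟨?_, ?_⟩,
    fun P σ₀ hP hA h0 h1 => ⟨Pool.Agent.L7h13.XD.right_iff hP hA h0 h1,
      Pool.Agent.L7h13.XD.left_iff hP hA h0 h1, fun κ hκ => Pool.Agent.L7h13.XD.quant hP hA h0 h1 hκ⟩,
    fun P σ₀ δ θ hP h0 h1 h hδ hθ => ⟨Pool.Agent.L7h13.XD.right_few hP h0 h1 h hδ hθ,
      Pool.Agent.L7h13.XD.left_few hP h0 h1 h hδ hθ⟩⟩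
  · have h := Pool.Agent.L7h13.SP.lh_iff.trans (Pool.Agent.L7h13.XD.lh_off
      (P := X ^ k) (pow_ne_zero k Polynomial.X_ne_zero) (Pool.Agent.L7h13.XD.pow_adm k))
    rw [Pool.Agent.L7h13.XD.op_pow] at h
    exact h
  · exact Pool.Agent.L7h13.SP.lh_iff.trans
      (Pool.Agent.L7h13.XD.right_iff hP hA le_rfl (by norm_num))
  · have h := Pool.Agent.L7h13.SP.lh_iff.trans
      (Pool.Agent.L7h13.XD.left_iff hP hA le_rfl (by norm_num))
    have e : ∀ δ : ℝ, 1 - 1 / 2 - δ = 1 / 2 - δ := fun δ => by ring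
    simp only [e] at h
    exact h

end Pool.Agent.Results.MP_4e5e8a_nt.XiDerivativeZeros
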