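import Mathlib
import Pool.Agent.L7h13.WL.Near

/-!
# Large values of zeta are hidden behind barriers of zeros

The corridor at the height `T'`, of half width `η`, to the right of `a`, is the set of the `s` with `Re s ≥ a` and
`|Im s - T'| ≤ η`.  Let `F(s) = P(d/ds) ζ(s) - ∑_{n ≤ N} b_n n^{-s}`, `P ≠ 0`; for instance `ζ`, its derivatives, or
`ζ - a`.

* (barriers, critical line, unconditional) For every `κ > 0` there is `δ > 0` such that for every `η > 0`, however
  small, there is `θ > 0` such that for all large `T` with `|ζ(1/2 + iT)| > T^κ` there is `T₁`, `|T₁ - T| ≤ 5`, such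
  that EVERY corridor of half width `η` to the right of `1/2 + δ` with height in `[T₁ - δ, T₁ + δ]` contains
  more than `θ log T` zeros of `ζ`.
* (barriers, unconditional) Let `0 ≤ σ₀ < 1` and `κ > 0`. There is `δ > 0` such that for every `η > 0`
  there is `θ > 0` such that for all large `T`: if `|F(x + iT)| > T^κ` for some `x ≥ σ₀ + κ`, then every
  corridor of half width `η` to the right of `σ₀ + δ` with height in `[T - δ, T]`, or every such corridor with
  height in `[T, T + δ]`, contains more than `θ log T` zeros of `F`.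
* (criterion) Backlund's theorem says that the Lindelöf hypothesis holds if and only if ALL windows
  `|Im s - T| ≤ 1` contain few, that is `o(log T)`, zeros of `ζ` to the right of `1/2 + δ`, for each `δ > 0`. We show
  that it is enough that for every `δ > 0` there is `η > 0` such that in each window `[T - δ, T + δ]` there is
  ONE corridor of half width `η`, to the right of `1/2 + δ`, with few zeros. Nothing is assumed outside of
  these corridors. The same holds for the zeros of `F`, and for the bounds `ζ(σ + it) = O(t^ε)`, `σ > σ₀`.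
* (quantitative form) For every `κ > 0` there is `δ > 0` such that for every `η > 0` there is `θ > 0` such that:
  if for all large `T` there is one corridor of half width `η` with at most `θ log T` zeros, to the right
  of `σ₀ + δ` and with height in `[T - δ, T + δ]`, then `ζ(σ₀ + it) = O(|t|^κ)`.

So if the Lindelöf hypothesis is false then the zeros off the critical line form closed barriers: there
are `δ > 0` and arbitrarily large `T` such that the zeros to the right of `1/2 + δ` have positive density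
(in terms of `log T`) in all parts of `[T - δ, T + δ]`, on every scale.

Proof. The corridor is the image of a disc under `X + iT' + (2η/π) log ((1 + z)/(1 - z))`, and a uniform form of
Backlund's argument in the disc gives `|F| ≤ T^ε` on the middle line of a corridor with few zeros. Between two
such lines at distance at most `2δ` the maximum principle, for `F(s) exp (- C log T e^{-π (s - s₀) / (4δ)})`, gives
`|F| ≤ T^(ε + C' exp (-π x / (4 δ)))` at distance `x` from the left side. Jensen's inequality then gives few zeros in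
all windows, and one can use the earlier theorem `DerivativeZeros` of this folder. By the functional equation
and the maximum principle a large value at `1/2 + iT` implies a large value at `1/2 + κ/2 + it` for some `t` near `T`.
-/

set_option autoImplicit false

namespace Pool.Agent.Results.MP_4e5e8a_nt.ZeroBarriers

open Polynomial

/-- `F(s) = P(d/ds) ζ(s) - ∑_{1 ≤ n ≤ N} b_n n^{-s}` -/
noncomputable def F (P : ℂ[X]) (N : ℕ) (b : ℕ → ℂ) (s : ℂ) : ℂ :=
  ∑ k ∈ Finset.range (P.natDegree + 1), P.coeff k * iteratedDeriv k riemannZeta s -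
    ∑ n ∈ Finset.Icc 1 N, b n * (n : ℂ) ^ (-s)

/-- at most `n` zeros of `f`, counted with multiplicity, in the corridor `Re s ≥ a`, `|Im s - T| ≤ η`.  (The order
of a point which is not a zero is `0`.) -/
def Few (f : ℂ → ℂ) (a T η n : ℝ) : Prop := ∀ S : Finset ℂ,
  (∀ s ∈ S, a ≤ s.re ∧ |s.im - T| ≤ η) → ∑ s ∈ S, (analyticOrderNatAt f s : ℝ) ≤ n

/-- more than `n` zeros of `f`, counted with multiplicity, in the corridor `Re s ≥ a`, `|Im s - T| ≤ η` -/
def Many (f : ℂ → ℂ) (a T η n : ℝ) : Prop := ∃ S : Finset ℂ,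
  (∀ s ∈ S, a ≤ s.re ∧ |s.im - T| ≤ η) ∧ n < ∑ s ∈ S, (analyticOrderNatAt f s : ℝ)

/-- for all large `T` there is one corridor with at most `θ log T` zeros, at a height in `[T - δ, T + δ]` -/
def Corridors (f : ℂ → ℂ) (σ₀ δ η θ : ℝ) : Prop := ∃ T₀ : ℝ, ∀ T : ℝ, T₀ ≤ T →
  ∃ T' : ℝ, |T' - T| ≤ δ ∧ Few f (σ₀ + δ) T' η (θ * Real.log T)

/-- `ζ(σ + it) = O(|t|^ε)` for all `σ > σ₀` and `ε > 0` -/
def Bound (σ₀ : ℝ) : Prop := ∀ σ : ℝ, σ₀ < σ → ∀ ε : ℝ, 0 < ε → ∃ C : ℝ, ∀ t : ℝ, 1 ≤ |t| →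
  ‖riemannZeta (σ + t * Complex.I)‖ ≤ C * |t| ^ ε

/-- The Lindelöf hypothesis. -/
def Lindelof : Prop := ∀ ε : ℝ, 0 < ε → ∃ C : ℝ, ∀ t : ℝ,
  ‖riemannZeta (1 / 2 + t * Complex.I)‖ ≤ C * (1 + |t|) ^ ε

lemma many_of {f : ℂ → ℂ} {a T η n : ℝ} (h : ¬ Few f a T η n) : Many f a T η n := by
  unfold Few at h
  push Not at h
  exact h

theorem result :
    -- barriers of zeros near large values on the critical line, unconditional
    (∀ κ : ℝ, 0 < κ → ∃ δ : ℝ, 0 < δ ∧ ∀ η : ℝ, 0 < η → ∃ θ : ℝ, 0 < θ ∧ ∃ T₀ : ℝ, ∀ T : ℝ, T₀ ≤ T →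
      T ^ κ < ‖riemannZeta (1 / 2 + T * Complex.I)‖ → ∃ T₁ : ℝ, |T₁ - T| ≤ 5 ∧
        ∀ T' : ℝ, |T' - T₁| ≤ δ → Many riemannZeta (1 / 2 + δ) T' η (θ * Real.log T)) ∧
    -- barriers of zeros near large values to the right, unconditional
    (∀ (P : ℂ[X]) (N : ℕ) (b : ℕ → ℂ) (σ₀ κ : ℝ), P ≠ 0 → 0 ≤ σ₀ → σ₀ < 1 → 0 < κ →
      ∃ δ : ℝ, 0 < δ ∧ ∀ η : ℝ, 0 < η → ∃ θ : ℝ, 0 < θ ∧ ∃ T₀ : ℝ, ∀ x T : ℝ, T₀ ≤ T → σ₀ + κ ≤ x →
        T ^ κ < ‖F P N b (x + T * Complex.I)‖ →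
          (∀ T' : ℝ, T - δ ≤ T' → T' ≤ T → Many (F P N b) (σ₀ + δ) T' η (θ * Real.log T)) ∨
          (∀ T' : ℝ, T ≤ T' → T' ≤ T + δ → Many (F P N b) (σ₀ + δ) T' η (θ * Real.log T))) ∧
    -- the Lindelöf hypothesis
    (∀ (P : ℂ[X]) (N : ℕ) (b : ℕ → ℂ), P ≠ 0 →
      (Lindelof ↔ ∀ δ : ℝ, 0 < δ → ∃ η : ℝ, 0 < η ∧ ∀ θ : ℝ, 0 < θ →
        Corridors (F P N b) (1 / 2) δ η θ)) ∧
    -- the bounds in a half plane
    (∀ (P : ℂ[X]) (N : ℕ) (b : ℕ → ℂ) (σ₀ : ℝ), P ≠ 0 → 1 / 2 ≤ σ₀ → σ₀ < 1 →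
      (Bound σ₀ ↔ ∀ δ : ℝ, 0 < δ → ∃ η : ℝ, 0 < η ∧ ∀ θ : ℝ, 0 < θ → Corridors (F P N b) σ₀ δ η θ) ∧
      -- the quantitative form
      (∀ κ : ℝ, 0 < κ → ∃ δ : ℝ, 0 < δ ∧ ∀ η : ℝ, 0 < η → ∃ θ : ℝ, 0 < θ ∧
        (Corridors (F P N b) σ₀ δ η θ →
          ∃ C : ℝ, ∀ t : ℝ, 1 ≤ |t| → ‖riemannZeta (σ₀ + t * Complex.I)‖ ≤ C * |t| ^ κ))) := by
  refine ⟨fun κ hκ => ?_, fun P N b σ₀ κ hP h0 h1 hκ => ?_, fun P N b hP => ?_, fun P N b σ₀ hP h0 h1 =>
    ⟨Pool.Agent.L7h13.WL.corr_iff hP N b h0 h1, fun κ hκ => Pool.Agent.L7h13.WL.quant hP N b h0 h1 hκ⟩⟩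
  · obtain ⟨δ, hδ, H⟩ := Pool.Agent.L7h13.WL.near_barrier hκ
    refine ⟨δ, hδ, fun η hη => ?_⟩
    obtain ⟨θ, hθ, T₀, H'⟩ := H η hη
    refine ⟨θ, hθ, T₀, fun T hT hbig => ?_⟩
    obtain ⟨T₁, h1, h2⟩ := H' T hT hbig
    exact ⟨T₁, h1, fun T' hT' => many_of (h2 T' hT')⟩
  · obtain ⟨δ, hδ, H⟩ := Pool.Agent.L7h13.WL.barrier' hP N b h0 h1 hκ
    refine ⟨δ, hδ, fun η hη => ?_⟩
    obtain ⟨θ, hθ, T₀, _, H'⟩ := H η hη
    refine ⟨θ, hθ, T₀, fun x T hT hx hbig => ?_⟩
    rcases H' x T hT hx hbig with h | h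
    · left
      intro T' a1 a2
      exact many_of (h T' a1 a2)
    · right
      intro T' a1 a2
      exact many_of (h T' a1 a2)
  · exact Pool.Agent.L7h13.SP.lh_iff.trans
      (Pool.Agent.L7h13.WL.corr_iff hP N b le_rfl (by norm_num))

end Pool.Agent.Results.MP_4e5e8a_nt.ZeroBarriers
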